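import Pool.Agent.H13.LN.Targets

/-!
# VFC (board lnt_modules): invariants are homomorphisms
-/

set_option autoImplicit false

namespace Pool.Agent.H25.LNT

open Finset Pool.Agent.H59.LIN Pool.Agent.H13.LN

/-- moves preserve the words whose closure is a knot -/
theorem mv_knot (hRUN : T_RUN) {x y : Σ n, Wd n} (h : Mv x y) (hx : Knot x.2) : Knot y.2 := by
  obtain ⟨r1, -, -, r4, r5, r6, r7, -, -⟩ := hRUN
  have key : ∀ (n : ℕ) (u v a b a' b' : Wd n), (∀ q, run a q = run a' q) →
      (∀ q, run b q = run b' q) → run (u ++ a' ++ v) = run (u ++ b' ++ v) →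
      Knot (u ++ a ++ v) → Knot (u ++ b ++ v) := by
    intro n u v a b a' b' ha hb hab hk
    refine r5 n Bool Bool (u ++ a ++ v) (u ++ b ++ v) ?_ hk
    funext p
    have h1 := congrFun hab p
    simp only [r1] at h1 ⊢
    rw [ha, hb]
    exact h1
  cases h with
  | cancel n u v i b =>
    have h7 := (r7 n _ _ (St.ss u v i)).1
    have := key n u v [(i, b), (i, !b)] [] [(i, false), (i, false)] [] (fun q => rfl)
      (fun q => rfl) (by simpa using h7) (by simpa using hx)
    simpa using this
  | far n u v i j b c hij =>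
    have h7 := (r7 n _ _ (St.far u v i j b c hij)).1
    exact r5 n Bool Bool _ _ h7 hx
  | braid n u v i j hij =>
    have h7 := (r7 n _ _ (St.braid u v i j hij)).1
    have := key n u v [(i, true), (j, true), (i, true)] [(j, true), (i, true), (j, true)]
      [(i, false), (j, false), (i, false)] [(j, false), (i, false), (j, false)] (fun q => rfl)
      (fun q => rfl) (by simpa using h7) (by simpa using hx)
    simpa using this
  | conj n u v => exact r4 n Bool u v hx
  | stab n w b => exact r6 n w b hx

theorem vfc (hRUN : T_RUN) (hEXA : T_EXA) : T_VFC := by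
  have hmv := @mv_knot hRUN
  obtain ⟨r1, -, -, r4, r5, r6, r7, -, -⟩ := hRUN
  obtain ⟨-, -, e3, -, -, -, e7⟩ := hEXA
  intro d B _
  constructor
  · intro v hv hft
    let ψ : (KW →₀ ℤ) →+ B := Finsupp.liftAddHom (fun k : KW => zmultiplesHom B (v k.1 k.2.1))
    have hs : ∀ k : KW, ψ (Finsupp.single k 1) = v k.1 k.2.1 := by
      intro k
      simp [ψ]
    have hkn : ∀ (n : ℕ) (w : Wd n), Knot w → ψ (kn n w) = v n w := by
      intro n w hw
      unfold kn
      rw [dif_pos hw, hs]
    have hext : ∀ (n : ℕ) (w : SWd n), Knot w → ψ (ext (kn n) [] w) = ext (v n) [] w := by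
      intro n w hw
      rw [← e7 _ _ ψ n (kn n) [] w]
      refine e3 B n _ _ [] w fun r hr => ?_
      refine hkn n r (r5 n (Option Bool) Bool w r ?_ hw)
      funext p
      exact (hr p).symm
    have hker : Fil (d + 1) ≤ ψ.ker := by
      unfold Fil
      rw [AddSubgroup.closure_le]
      rintro x (⟨a, b, hab, rfl⟩ | ⟨n, w, hw, hd, rfl⟩)
      · change ψ _ = 0
        rw [map_sub, hs, hs, sub_eq_zero]
        exact hv _ _ hab a.2.2
      · change ψ _ = 0
        rw [hext n w hw]
        exact hft n w hw hd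
    refine ⟨QuotientAddGroup.lift (Fil (d + 1)) ψ hker, ?_, ?_⟩
    · intro n w hw
      exact hkn n w hw
    · intro n w hw
      exact hext n w hw
  · intro φ
    have h3 : ∀ (n : ℕ) (w : SWd n),
        ext (fun u : Wd n => φ (QuotientAddGroup.mk (kn n u))) [] w =
          φ (QuotientAddGroup.mk (ext (kn n) [] w)) := by
      intro n w
      exact e7 _ _ (φ.comp (QuotientAddGroup.mk' (Fil (d + 1)))) n (kn n) [] w
    refine ⟨?_, ?_, fun n w _ => h3 n w⟩
    · intro x y hxy hx
      have hy := hmv hxy hx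
      have : (QuotientAddGroup.mk (kn x.1 x.2) : (KW →₀ ℤ) ⧸ Fil (d + 1)) =
          QuotientAddGroup.mk (kn y.1 y.2) := by
        rw [← sub_eq_zero, ← QuotientAddGroup.mk_sub, QuotientAddGroup.eq_zero_iff]
        unfold Fil
        apply AddSubgroup.subset_closure
        left
        refine ⟨⟨x.1, x.2, hx⟩, ⟨y.1, y.2, hy⟩, hxy, ?_⟩
        unfold kn
        rw [dif_pos hx, dif_pos hy]
      change φ (QuotientAddGroup.mk (kn x.1 x.2)) = φ (QuotientAddGroup.mk (kn y.1 y.2))
      rw [this]
    · intro n w hw hd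
      rw [h3 n w]
      have : (QuotientAddGroup.mk (ext (kn n) [] w) : (KW →₀ ℤ) ⧸ Fil (d + 1)) = 0 := by
        rw [QuotientAddGroup.eq_zero_iff]
        unfold Fil
        apply AddSubgroup.subset_closure
        right
        exact ⟨n, w, hw, hd, rfl⟩
      rw [this, map_zero]

end Pool.Agent.H25.LNT
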