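import Pool.Agent.H13.LN.Targets

/-!
# WSA (board lnt_modules): the function on chord diagrams
-/

set_option autoImplicit false

namespace Pool.Agent.H25.LNT

open Finset Pool.Agent.H59.LIN Pool.Agent.H13.LN

theorem cnt_map {l : List ℕ} {g : ℕ → ℕ} (hg : Set.InjOn g {a | a ∈ l}) {a : ℕ} (ha : a ∈ l) :
    (l.map g).count (g a) = l.count a := by
  rw [List.count, List.countP_map, List.count]
  apply List.countP_congr
  intro x hx
  simp only [Function.comp, beq_iff_eq]
  constructor
  · intro h
    exact hg hx ha h
  · intro h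
    rw [h]

theorem gw_map {d : ℕ} {l : List ℕ} {g : ℕ → ℕ} (hl : Gw d l) (hg : Set.InjOn g {a | a ∈ l}) :
    Gw d (l.map g) := by
  refine ⟨by rw [List.length_map]; exact hl.1, ?_⟩
  intro b hb
  obtain ⟨a, ha, rfl⟩ := List.mem_map.1 hb
  rw [cnt_map hg ha]
  exact hl.2 a ha

theorem gw_ded {d : ℕ} {l : List ℕ} (hl : Gw d l) : l.dedup.length = d := by
  have h1 := List.sum_toFinset_count_eq_length l
  rw [Finset.sum_congr rfl (fun a ha => hl.2 a (List.mem_toFinset.1 ha)), hl.1,
    Finset.sum_const, smul_eq_mul] at h1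
  rw [← List.card_toFinset]
  omega

/-- the name of the letter `a` -/
def nm (l : List ℕ) (a : ℕ) : ℕ := l.dedup.idxOf a

theorem nm_inj (l : List ℕ) : Set.InjOn (nm l) {a | a ∈ l} := by
  intro a ha b hb hab
  exact (List.idxOf_inj (List.mem_dedup.2 ha)).1 hab

theorem nm_lt {d : ℕ} {l : List ℕ} (hl : Gw d l) {a : ℕ} (ha : a ∈ l) : nm l a < d := by
  have := List.idxOf_lt_length_of_mem (List.mem_dedup.2 ha)
  rw [gw_ded hl] at this
  exact this

theorem cnt_full {d : ℕ} {l : List ℕ} {f : ℕ → ℕ} (hl : Gw d l) (hf : Set.InjOn f {a | a ∈ l})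
    (hlt : ∀ a ∈ l, f a < d) (k : ℕ) : (l.map f).count k = if k < d then 2 else 0 := by
  split_ifs with hk
  · have himg : l.toFinset.image f = range d := by
      apply Finset.eq_of_subset_of_card_le
      · intro x hx
        obtain ⟨a, ha, rfl⟩ := Finset.mem_image.1 hx
        exact Finset.mem_range.2 (hlt a (List.mem_toFinset.1 ha))
      · rw [Finset.card_image_of_injOn, Finset.card_range, List.card_toFinset, gw_ded hl]
        intro a ha b hb
        exact hf (List.mem_toFinset.1 ha) (List.mem_toFinset.1 hb)
    have : k ∈ l.toFinset.image f := by rw [himg]; exact Finset.mem_range.2 hk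
    obtain ⟨a, ha, rfl⟩ := Finset.mem_image.1 this
    have ha' := List.mem_toFinset.1 ha
    rw [cnt_map hf ha']
    exact hl.2 a ha'
  · apply List.count_eq_zero_of_not_mem
    intro h
    obtain ⟨a, ha, rfl⟩ := List.mem_map.1 h
    exact hk (hlt a ha)

theorem vl_single {d : ℕ} {m : List ℕ} (hm : ∀ k, m.count k = if k < d then 2 else 0)
    (hne : m ≠ []) : VL d (m.map (fun k => [k])) := by
  have hfl : ∀ m : List ℕ, (m.map (fun k => [k])).flatten = m := by
    intro m
    induction m with
    | nil => rfl
    | cons a m ih => simp [ih]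
  refine ⟨by simpa using hne, ?_, ?_⟩
  · intro b hb
    obtain ⟨k, -, rfl⟩ := List.mem_map.1 hb
    simp
  · intro k
    rw [hfl, hm]

theorem wsa (hFUL : T_FUL) (hPRM : T_PRM) : T_WSA := by
  intro B _ d H hH
  let S : List ℕ → B := fun l => H ([] :: (l.map (nm l)).map (fun k => [k]))
  have hA : ∀ (l : List ℕ) (f : ℕ → ℕ), Gw d l → Set.InjOn f {a | a ∈ l} →
      (∀ a ∈ l, f a < d) → H ([] :: (l.map f).map (fun k => [k])) = S l := by
    intro l f hl hf hlt
    let σ : ℕ → ℕ := fun k => f (l.dedup.getD k 0)
    have hmem : ∀ k, k < d → l.dedup.getD k 0 ∈ l := by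
      intro k hk
      have hk' : k < l.dedup.length := by rw [gw_ded hl]; exact hk
      rw [List.getD_eq_getElem _ _ hk']
      exact List.mem_dedup.1 (List.getElem_mem hk')
    have hmap : (l.map (nm l)).map σ = l.map f := by
      rw [List.map_map]
      apply List.map_congr_left
      intro a ha
      have hlt' : nm l a < l.dedup.length :=
        List.idxOf_lt_length_of_mem (List.mem_dedup.2 ha)
      change f (l.dedup.getD (nm l a) 0) = f a
      rw [List.getD_eq_getElem _ _ hlt']
      congr 1
      exact List.getElem_idxOf hlt'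
    have hcnt := cnt_full hl (nm_inj l) (fun a ha => nm_lt hl ha)
    have h := hPRM B d H hH (l.map (nm l)) σ hcnt ?_ ?_
    · rw [hmap] at h
      exact h
    · intro k hk k' hk' hkk
      have h1 := hf (hmem k hk) (hmem k' hk') hkk
      have hk1 : k < l.dedup.length := by rw [gw_ded hl]; exact hk
      have hk2 : k' < l.dedup.length := by rw [gw_ded hl]; exact hk'
      rw [List.getD_eq_getElem _ _ hk1, List.getD_eq_getElem _ _ hk2] at h1
      exact (List.Nodup.getElem_inj_iff (List.nodup_dedup l)).1 h1
    · intro k hk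
      exact hlt _ (hmem k hk)
  refine ⟨S, ?_, ?_, ?_⟩
  · intro l f hl hf
    have hgw := gw_map hl hf
    have h := hA l (fun a => nm (l.map f) (f a)) hl ?_ ?_
    · rw [← h]
      change H ([] :: ((l.map f).map (nm (l.map f))).map (fun k => [k])) = _
      rw [List.map_map (l := l)]
      rfl
    · intro a ha b hb hab
      exact hf ha hb (nm_inj (l.map f) (List.mem_map_of_mem ha) (List.mem_map_of_mem hb) hab)
    · intro a ha
      exact nm_lt hgw (List.mem_map_of_mem ha)
  · intro a l hl
    have hp : (l ++ [a]).Perm (a :: l) := by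
      simp
    have hl' : Gw d (l ++ [a]) := by
      refine ⟨by rw [hp.length_eq]; exact hl.1, fun b hb => ?_⟩
      rw [hp.count_eq]
      exact hl.2 b (hp.mem_iff.1 hb)
    have hmemeq : {b | b ∈ l ++ [a]} = {b | b ∈ a :: l} := by
      ext b
      exact hp.mem_iff
    have h1 := hA (l ++ [a]) (nm (a :: l)) hl' (by rw [hmemeq]; exact nm_inj _)
      (fun b hb => nm_lt hl (hp.mem_iff.1 hb))
    rw [← h1]
    change _ = H ([] :: ((a :: l).map (nm (a :: l))).map (fun k => [k]))
    have hc1 := cnt_full hl (nm_inj (a :: l)) (fun b hb => nm_lt hl hb)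
    have hc2 : ∀ k, ((l ++ [a]).map (nm (a :: l))).count k = if k < d then 2 else 0 := by
      intro k
      rw [(hp.map (nm (a :: l))).count_eq]
      exact hc1 k
    have v1 := vl_single hc1 (by simp)
    have v2 := vl_single hc2 (by simp)
    rw [hH.emp _ v2, hH.emp _ v1]
    simp only [List.map_append, List.map_cons, List.map_nil] at v1 ⊢
    exact hH.rot _ _ v1
  · intro L hL
    have hgw : Gw d L.flatten := by
      have hcnt := hL.cnt
      constructor
      · rw [← List.sum_toFinset_count_eq_length]
        have : L.flatten.toFinset = range d := by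
          ext k
          rw [List.mem_toFinset, Finset.mem_range, ← List.count_pos_iff, hcnt k]
          split_ifs with h <;> simp [h]
        rw [this, Finset.sum_congr rfl (fun k hk => by
          rw [hcnt k, if_pos (Finset.mem_range.1 hk)]), Finset.sum_const, Finset.card_range,
          smul_eq_mul, Nat.mul_comm]
      · intro a ha
        have h1 := hcnt a
        have h2 : 0 < L.flatten.count a := List.count_pos_iff.2 ha
        rw [h1] at h2 ⊢
        split_ifs at h2 ⊢ with h
        · rfl
        · exact absurd h2 (lt_irrefl 0)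
    have hlt : ∀ a ∈ L.flatten, a < d := by
      intro a ha
      have h2 : 0 < L.flatten.count a := List.count_pos_iff.2 ha
      rw [hL.cnt a] at h2
      by_contra h
      rw [if_neg h] at h2
      exact absurd h2 (lt_irrefl 0)
    have h1 := hA L.flatten id hgw (Set.injOn_id _) hlt
    rw [← h1, List.map_id]
    exact hFUL B d H hH L hL

end Pool.Agent.H25.LNT
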